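import Mathlib

/-! The objects of the statement: the reflection group of the right-angled hexagon in the complex
hyperbolic plane, its limit set in the 3-sphere, and the standard Menger curve. -/

namespace Pool.Agent.Lib.MP_b7d179_gt.Stmt

open Set

noncomputable section

/-- The Hermitian form of signature (2,1) on `ℂ³`. -/
def form (z w : Fin 3 → ℂ) : ℂ :=
  z 0 * (starRingEnd ℂ) (w 0) + z 1 * (starRingEnd ℂ) (w 1) - z 2 * (starRingEnd ℂ) (w 2)

/-- Polar vector of the complex geodesic through the `i`-th side of the regular right-angled hexagon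
centred at the origin of the real plane of the ball. -/
def pol (i : Fin 6) : Fin 3 → ℂ :=
  ![(Real.cos ((i : ℕ) * Real.pi / 3) : ℝ), (Real.sin ((i : ℕ) * Real.pi / 3) : ℝ),
    ((1 / Real.sqrt 2 : ℝ) : ℂ)]

/-- The cube root of unity `exp (2 π i / 3)`. -/
def om : ℂ := Complex.exp (2 * Real.pi * Complex.I / 3)

/-- The complex reflection of order three: the identity on the orthogonal complement of `pol i`,
multiplication by `om` on `pol i`. -/
def refl (i : Fin 6) (z : Fin 3 → ℂ) : Fin 3 → ℂ :=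
  z + ((om - 1) * form z (pol i) / form (pol i) (pol i)) • pol i

/-- The group generated by the six reflections. -/
def Gam : Subgroup (GL (Fin 3) ℂ) :=
  Subgroup.closure {u | ∃ i, ∀ z, (u : Matrix (Fin 3) (Fin 3) ℂ).mulVec z = refl i z}

/-- Projective action in the ball model. -/
def act (u : GL (Fin 3) ℂ) (p : ℂ × ℂ) : ℂ × ℂ :=
  ((u : Matrix (Fin 3) (Fin 3) ℂ).mulVec ![p.1, p.2, 1] 0 /
      (u : Matrix (Fin 3) (Fin 3) ℂ).mulVec ![p.1, p.2, 1] 2,
    (u : Matrix (Fin 3) (Fin 3) ℂ).mulVec ![p.1, p.2, 1] 1 /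
      (u : Matrix (Fin 3) (Fin 3) ℂ).mulVec ![p.1, p.2, 1] 2)

/-- The boundary sphere of the ball model. -/
abbrev S3 : Type := {p : ℂ × ℂ // ‖p.1‖ ^ 2 + ‖p.2‖ ^ 2 = 1}

/-- The limit set: points of the sphere in the closure of the orbit of the centre of the ball. -/
def limitSet : Set S3 := {p | p.1 ∈ closure {q | ∃ u ∈ Gam, q = act u (0, 0)}}

/-- `x` lies in an open middle third of level `n`. -/
def Mid (n : ℕ) (x : ℝ) : Prop :=
  ∃ i : ℤ, (3 * i + 1 : ℝ) / 3 ^ (n + 1) < x ∧ x < (3 * i + 2 : ℝ) / 3 ^ (n + 1)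

/-- The Sierpinski carpet: the unit square without the open middle ninths of all grid squares. -/
def carpet : Set (ℝ × ℝ) :=
  {p | p.1 ∈ Icc (0 : ℝ) 1 ∧ p.2 ∈ Icc (0 : ℝ) 1 ∧ ∀ n, ¬ (Mid n p.1 ∧ Mid n p.2)}

/-- The standard Menger curve: all three coordinate projections lie in the carpet. -/
def sponge : Set (Fin 3 → ℝ) :=
  {x | (x 1, x 2) ∈ carpet ∧ (x 0, x 2) ∈ carpet ∧ (x 0, x 1) ∈ carpet}

/-- Inverse stereographic projection from the pole `(0, i)`. -/
def stereo (x : Fin 3 → ℝ) : ℂ × ℂ :=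
  (((2 * x 0 : ℝ) + (2 * x 1 : ℝ) * Complex.I) / ((x 0 ^ 2 + x 1 ^ 2 + x 2 ^ 2 + 1 : ℝ) : ℂ),
    ((2 * x 2 : ℝ) + (x 0 ^ 2 + x 1 ^ 2 + x 2 ^ 2 - 1 : ℝ) * Complex.I) /
      ((x 0 ^ 2 + x 1 ^ 2 + x 2 ^ 2 + 1 : ℝ) : ℂ))

/-- The standard Menger curve as a subset of the sphere. -/
def mengerS3 : Set S3 := {p | ∃ x ∈ sponge, p.1 = stereo x}

/-- Ambient isotopy of the sphere that carries `A` onto `B`. -/
def AmbIso (A B : Set S3) : Prop :=
  ∃ H : unitInterval → S3 ≃ₜ S3, Continuous (fun p : unitInterval × S3 => H p.1 p.2) ∧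
    (∀ x, H 0 x = x) ∧ H 1 '' A = B

end

end Pool.Agent.Lib.MP_b7d179_gt.Stmt
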