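import Pool.Agent.Lib.MP_b7d179_gt.Stmt

/-! The same objects for every position of the hexagon and every base point. -/

namespace Pool.Agent.Lib.MP_b7d179_gt.Stmt

open Set

noncomputable section

/-- `u` preserves the Hermitian form. -/
def Uni (u : GL (Fin 3) ℂ) : Prop :=
  ∀ z w, form ((u : Matrix (Fin 3) (Fin 3) ℂ).mulVec z) ((u : Matrix (Fin 3) (Fin 3) ℂ).mulVec w) =
    form z w

/-- The complex reflection of order three with polar vector `c`. -/
def reflIn (c z : Fin 3 → ℂ) : Fin 3 → ℂ := z + ((om - 1) * form z c / form c c) • c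

/-- The group generated by the six reflections in the sides of the image of the hexagon under
`u`. -/
def GamU (u : GL (Fin 3) ℂ) : Subgroup (GL (Fin 3) ℂ) :=
  Subgroup.closure {g | ∃ i, ∀ z, (g : Matrix (Fin 3) (Fin 3) ℂ).mulVec z =
    reflIn ((u : Matrix (Fin 3) (Fin 3) ℂ).mulVec (pol i)) z}

/-- Its limit set: points of the sphere in the closure of the orbit of `o`. -/
def limU (u : GL (Fin 3) ℂ) (o : ℂ × ℂ) : Set S3 :=
  {p | p.1 ∈ closure {q | ∃ g ∈ GamU u, q = act g o}}

end

end Pool.Agent.Lib.MP_b7d179_gt.Stmt
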