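import Pool.Agent.Lib.MP_b7d179_gt.Stmt2

/-! Regular right-angled hexagons in real planes of the ball and their reflection groups. -/

namespace Pool.Agent.Lib.MP_b7d179_gt.Stmt

open Set

noncomputable section

/-- The lift of a point of the ball to `ℂ³`. -/
def lift (p : ℂ × ℂ) : Fin 3 → ℂ := ![p.1, p.2, 1]

/-- The unit ball of `ℂ²`, the complex hyperbolic plane. -/
def ball2 : Set (ℂ × ℂ) := {p | ‖p.1‖ ^ 2 + ‖p.2‖ ^ 2 < 1}

/-- A real hyperbolic plane: the image of the real points of the ball under an isometry. -/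
def RealPlane (P : Set (ℂ × ℂ)) : Prop :=
  ∃ u, Uni u ∧ P = act u '' {p ∈ ball2 | p.1.im = 0 ∧ p.2.im = 0}

/-- The hyperbolic cosine of the distance, scaled so that real planes have curvature `-1`. -/
def ch (p q : ℂ × ℂ) : ℝ :=
  ‖form (lift p) (lift q)‖ / Real.sqrt (‖form (lift p) (lift p)‖ * ‖form (lift q) (lift q)‖)

/-- A regular right-angled hexagon in `P`: six different points on a circle, equal sides, and the
theorem of Pythagoras at every vertex. -/
structure Hexagon (P : Set (ℂ × ℂ)) (z : Fin 6 → ℂ × ℂ) : Prop where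
  mem : ∀ i, z i ∈ P
  inj : Function.Injective z
  centre : ∃ o ∈ P, ∀ i j, ch o (z i) = ch o (z j)
  side : ∀ i j, ch (z i) (z (i + 1)) = ch (z j) (z (j + 1))
  right : ∀ i, ch (z i) (z (i + 2)) = ch (z i) (z (i + 1)) * ch (z (i + 1)) (z (i + 2))

/-- `g` fixes the complex geodesic through `p`, `q` pointwise and turns its normal directions by
`2 π / 3`. -/
def CRefl (p q : ℂ × ℂ) (g : GL (Fin 3) ℂ) : Prop :=
  (g : Matrix (Fin 3) (Fin 3) ℂ).mulVec (lift p) = lift p ∧
  (g : Matrix (Fin 3) (Fin 3) ℂ).mulVec (lift q) = lift q ∧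
  ∀ c, form c (lift p) = 0 → form c (lift q) = 0 →
    (g : Matrix (Fin 3) (Fin 3) ℂ).mulVec c = om • c

/-- The six reflections in the sides of a regular right-angled hexagon in a real plane. -/
def HexRefl (g : Fin 6 → GL (Fin 3) ℂ) : Prop :=
  ∃ P z, RealPlane P ∧ Hexagon P z ∧ ∀ i, CRefl (z i) (z (i + 1)) (g i)

/-- The limit set of `Γ`: points of the sphere in the closure of the orbit of `o`. -/
def limOf (Γ : Subgroup (GL (Fin 3) ℂ)) (o : ℂ × ℂ) : Set S3 :=
  {p | p.1 ∈ closure {q | ∃ g ∈ Γ, q = act g o}}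

end

end Pool.Agent.Lib.MP_b7d179_gt.Stmt
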